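import Pool.Agent.helper90.ZD.SpecB

set_option autoImplicit false

open Complex MeasureTheory

namespace Pool.Agent.ZD

open Pool.Agent.helper84.DM Pool.Agent.helper78.ED Pool.Agent.DH

/-- The square of the norm of a sum of unimodular numbers. -/
theorem BSN_sq {ι : Type*} (s : Finset ι) (a : ι → ℝ) :
    ((‖∑ j ∈ s, Complex.exp (((a j : ℝ) : ℂ) * I)‖ ^ 2 : ℝ) : ℂ) =
      ∑ i ∈ s, ∑ j ∈ s, Complex.exp (((a i - a j : ℝ) : ℂ) * I) := by
  push_cast
  rw [← Complex.mul_conj', map_sum, Finset.sum_mul_sum]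
  refine Finset.sum_congr rfl fun i _ => Finset.sum_congr rfl fun j _ => ?_
  rw [← Complex.exp_conj, ← Complex.exp_add]
  congr 1
  simp only [map_mul, Complex.conj_ofReal, Complex.conj_I]
  ring

theorem BSN : BSN_stmt := by
  intro W J x
  have key : ((SN W J x : ℝ) : ℂ) =
      ((∑ i ∈ J, ∑ i' ∈ J, ‖rho W (x i - x i')‖ ^ 2 : ℝ) : ℂ) := by
    have h1 : ((SN W J x : ℝ) : ℂ) = ∑ t ∈ W, ∑ t' ∈ W, ∑ i ∈ J, ∑ i' ∈ J,
        Complex.exp (((x i * (t - t') - x i' * (t - t') : ℝ) : ℂ) * I) := by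
      unfold SN nu
      rw [Complex.ofReal_sum]
      refine Finset.sum_congr rfl fun t _ => ?_
      rw [Complex.ofReal_sum]
      refine Finset.sum_congr rfl fun t' _ => ?_
      exact BSN_sq J fun j => x j * (t - t')
    have h2 : ((∑ i ∈ J, ∑ i' ∈ J, ‖rho W (x i - x i')‖ ^ 2 : ℝ) : ℂ) =
        ∑ i ∈ J, ∑ i' ∈ J, ∑ t ∈ W, ∑ t' ∈ W,
        Complex.exp (((t * (x i - x i') - t' * (x i - x i') : ℝ) : ℂ) * I) := by
      unfold rho
      rw [Complex.ofReal_sum]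
      refine Finset.sum_congr rfl fun i _ => ?_
      rw [Complex.ofReal_sum]
      refine Finset.sum_congr rfl fun i' _ => ?_
      exact BSN_sq W fun t => t * (x i - x i')
    rw [h1, h2]
    calc ∑ t ∈ W, ∑ t' ∈ W, ∑ i ∈ J, ∑ i' ∈ J,
        Complex.exp (((x i * (t - t') - x i' * (t - t') : ℝ) : ℂ) * I)
        = ∑ t ∈ W, ∑ i ∈ J, ∑ t' ∈ W, ∑ i' ∈ J,
        Complex.exp (((x i * (t - t') - x i' * (t - t') : ℝ) : ℂ) * I) :=
          Finset.sum_congr rfl fun t _ => Finset.sum_comm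
      _ = ∑ i ∈ J, ∑ t ∈ W, ∑ t' ∈ W, ∑ i' ∈ J,
        Complex.exp (((x i * (t - t') - x i' * (t - t') : ℝ) : ℂ) * I) := Finset.sum_comm
      _ = ∑ i ∈ J, ∑ t ∈ W, ∑ i' ∈ J, ∑ t' ∈ W,
        Complex.exp (((x i * (t - t') - x i' * (t - t') : ℝ) : ℂ) * I) :=
          Finset.sum_congr rfl fun i _ => Finset.sum_congr rfl fun t _ => Finset.sum_comm
      _ = ∑ i ∈ J, ∑ i' ∈ J, ∑ t ∈ W, ∑ t' ∈ W,
        Complex.exp (((x i * (t - t') - x i' * (t - t') : ℝ) : ℂ) * I) :=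
          Finset.sum_congr rfl fun i _ => Finset.sum_comm
      _ = _ := by
          refine Finset.sum_congr rfl fun i _ => Finset.sum_congr rfl fun i' _ =>
            Finset.sum_congr rfl fun t _ => Finset.sum_congr rfl fun t' _ => ?_
          congr 2
          congr 1
          ring
  exact_mod_cast key

end Pool.Agent.ZD
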