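import Pool.Agent.helper90.ZD.SpecB

set_option autoImplicit false

open Complex MeasureTheory
open scoped ComplexOrder

namespace Pool.Agent.ZD

open Pool.Agent.helper84.DM Pool.Agent.helper78.ED Pool.Agent.DH

theorem BT1_pow (k : ℕ) (hk : k ≠ 0) (t t' : ℝ) :
    (k : ℂ) ^ (-(((t - t' : ℝ) : ℂ) * I)) =
      (k : ℂ) ^ (-((t : ℂ) * I)) * (starRingEnd ℂ) ((k : ℂ) ^ (-((t' : ℂ) * I))) := by
  have hk' : (k : ℂ) ≠ 0 := by exact_mod_cast hk
  rw [Complex.cpow_def_of_ne_zero hk', Complex.cpow_def_of_ne_zero hk',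
    Complex.cpow_def_of_ne_zero hk', ← Complex.exp_conj, ← Complex.exp_add, ← Complex.natCast_log]
  congr 1
  simp only [map_mul, map_neg, Complex.conj_ofReal, Complex.conj_I]
  push_cast
  ring

theorem BT1_pow' (k : ℕ) (hk : k ≠ 0) (t t' : ℝ) :
    (starRingEnd ℂ) ((k : ℂ) ^ (-(((t - t' : ℝ) : ℂ) * I))) =
      (k : ℂ) ^ (-((t' : ℂ) * I)) * (starRingEnd ℂ) ((k : ℂ) ^ (-((t : ℂ) * I))) := by
  rw [BT1_pow k hk t t', map_mul, Complex.conj_conj, mul_comm]

theorem BT1_Phi_nonneg (y : ℝ) : 0 ≤ Phi y :=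
  mul_nonneg (Real.smoothTransition.nonneg _) (Real.smoothTransition.nonneg _)

theorem BT1 : BT1_stmt := by
  intro W c X L
  refine ⟨?_, ?_, ?_⟩
  · have h : BMat W X = ∑ k ∈ Finset.Icc 1 ⌊64 * X⌋₊, (Phi ((k : ℝ) / X)) •
        Matrix.vecMulVec (fun t : W => (k : ℂ) ^ (-(((t : ℝ) : ℂ) * I)))
          (star fun t : W => (k : ℂ) ^ (-(((t : ℝ) : ℂ) * I))) := by
      ext t t'
      rw [Matrix.sum_apply]
      simp only [BMat, BX, Matrix.of_apply, Matrix.smul_apply, Matrix.vecMulVec_apply,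
        Pi.star_apply, Complex.real_smul]
      refine Finset.sum_congr rfl fun k hk => ?_
      have hk0 : k ≠ 0 := by
        have := (Finset.mem_Icc.1 hk).1
        omega
      rw [BT1_pow k hk0]
      rfl
    rw [h]
    refine Matrix.posSemidef_sum _ fun k _ => ?_
    exact (Matrix.posSemidef_vecMulVec_self_star _).smul (BT1_Phi_nonneg _)
  · have h : GMat W c L = ∑ l ∈ IL L,
        Matrix.vecMulVec (fun t : W => (starRingEnd ℂ) (c (t : ℝ)) *
            (l : ℂ) ^ (-(((t : ℝ) : ℂ) * I)))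
          (star fun t : W => (starRingEnd ℂ) (c (t : ℝ)) * (l : ℂ) ^ (-(((t : ℝ) : ℂ) * I))) := by
      ext t' t
      rw [Matrix.sum_apply]
      simp only [GMat, PL, Matrix.of_apply, Matrix.vecMulVec_apply, Pi.star_apply]
      rw [map_sum, Finset.mul_sum]
      refine Finset.sum_congr rfl fun l hl => ?_
      have hl0 : l ≠ 0 := by
        have := (Finset.mem_Ioc.1 hl).1
        omega
      rw [BT1_pow' l hl0]
      have e : star ((starRingEnd ℂ) (c (t : ℝ)) * (l : ℂ) ^ (-(((t : ℝ) : ℂ) * I))) =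
          c (t : ℝ) * (starRingEnd ℂ) ((l : ℂ) ^ (-(((t : ℝ) : ℂ) * I))) := by
        rw [← starRingEnd_apply, map_mul, Complex.conj_conj]
      rw [e]
      ring
    rw [h]
    refine Matrix.posSemidef_sum _ fun k _ => ?_
    exact Matrix.posSemidef_vecMulVec_self_star _
  · intro t
    simp only [BMat, BX, mu, Matrix.of_apply]
    rw [Complex.ofReal_sum]
    refine Finset.sum_congr rfl fun k _ => ?_
    simp

end Pool.Agent.ZD
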